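import Mathlib
import Pool.Agent.H.MP_c8cc4c_co.Defs

/-! # MP_c8cc4c_co, base file B1: `Near` -/

open scoped Classical
open Finset

namespace Pool.Agent.H.MP_c8cc4c_co

variable {V : Type} {G : SimpleGraph V} {A B : Set V} {x y z : V} {m n : ℕ}

theorem near_refl (hx : x ∈ A) : Near G A 0 x x := by
  exact ⟨SimpleGraph.Walk.nil, by simp, by simpa using hx⟩

theorem near_symm (h : Near G A n x y) : Near G A n y x := by
  obtain ⟨p, h1, h2⟩ := h
  refine ⟨p.reverse, by simpa using h1, ?_⟩
  intro v hv
  exact h2 v (by simpa using hv)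

theorem near_trans (h : Near G A m x y) (h' : Near G A n y z) : Near G A (m + n) x z := by
  obtain ⟨p, h1, h2⟩ := h
  obtain ⟨q, h3, h4⟩ := h'
  refine ⟨p.append q, ?_, ?_⟩
  · rw [SimpleGraph.Walk.length_append]
    exact Nat.add_le_add h1 h3
  · intro v hv
    rw [SimpleGraph.Walk.mem_support_append_iff] at hv
    rcases hv with hv | hv
    · exact h2 v hv
    · exact h4 v hv

theorem near_mono (h : Near G A m x y) (hmn : m ≤ n) (hAB : A ⊆ B) : Near G B n x y := by
  obtain ⟨p, h1, h2⟩ := h
  exact ⟨p, h1.trans hmn, fun v hv => hAB (h2 v hv)⟩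

theorem near_left (h : Near G A n x y) : x ∈ A := by
  obtain ⟨p, h1, h2⟩ := h
  exact h2 x p.start_mem_support

theorem near_right (h : Near G A n x y) : y ∈ A := by
  obtain ⟨p, h1, h2⟩ := h
  exact h2 y p.end_mem_support

theorem near_adj (hx : x ∈ A) (hy : y ∈ A) (h : G.Adj x y) : Near G A 1 x y := by
  refine ⟨SimpleGraph.Walk.cons h SimpleGraph.Walk.nil, by simp, ?_⟩
  intro v hv
  simp only [SimpleGraph.Walk.support_cons, SimpleGraph.Walk.support_nil, List.mem_cons,
    List.not_mem_nil, or_false] at hv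
  rcases hv with rfl | rfl
  · exact hx
  · exact hy

theorem near_zero : Near G A 0 x y ↔ x = y ∧ x ∈ A := by
  constructor
  · intro h
    obtain ⟨p, h1, h2⟩ := h
    exact ⟨SimpleGraph.Walk.eq_of_length_eq_zero (Nat.le_zero.1 h1), h2 x p.start_mem_support⟩
  · rintro ⟨rfl, h⟩
    exact near_refl h

/-- first step of a walk -/
theorem near_succ : Near G A (n + 1) x y ↔ Near G A n x y ∨
    (x ∈ A ∧ ∃ z, G.Adj x z ∧ Near G A n z y) := by
  constructor
  · rintro ⟨p, h1, h2⟩
    cases p with
    | nil => exact Or.inl (near_mono (near_refl (h2 x (by simp))) (Nat.zero_le _) subset_rfl)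
    | @cons _ z _ hadj q =>
      right
      refine ⟨h2 x (by simp), z, hadj, q, ?_, ?_⟩
      · rw [SimpleGraph.Walk.length_cons] at h1
        omega
      · intro v hv
        exact h2 v (by simp [hv])
  · rintro (h | ⟨hx, z, hadj, h⟩)
    · exact near_mono h (Nat.le_succ _) subset_rfl
    · have h1 := near_trans (near_adj hx (near_left h) hadj) h
      rw [Nat.add_comm] at h1
      exact h1

/-- last step of a walk -/
theorem near_succ' : Near G A (n + 1) x y ↔ Near G A n x y ∨
    (y ∈ A ∧ ∃ z, G.Adj z y ∧ Near G A n x z) := by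
  constructor
  · intro h
    rcases near_succ.1 (near_symm h) with h | ⟨hy, z, hadj, h⟩
    · exact Or.inl (near_symm h)
    · exact Or.inr ⟨hy, z, hadj.symm, near_symm h⟩
  · rintro (h | ⟨hy, z, hadj, h⟩)
    · exact near_mono h (Nat.le_succ _) subset_rfl
    · exact near_trans h (near_adj (near_right h) hy hadj)

/-- a walk of length at most `m + n` passes through a vertex at distance at most `m` from the start and
at most `n` from the end (`Walk.take`, `Walk.drop`) -/
theorem near_split (h : Near G A (m + n) x y) : ∃ z, Near G A m x z ∧ Near G A n z y := by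
  induction m generalizing x with
  | zero =>
    rw [Nat.zero_add] at h
    exact ⟨x, near_refl (near_left h), h⟩
  | succ m ih =>
    rw [Nat.succ_add] at h
    rcases near_succ.1 h with h | ⟨hx, z', hadj, h⟩
    · obtain ⟨z, h1, h2⟩ := ih h
      exact ⟨z, near_mono h1 (Nat.le_succ _) subset_rfl, h2⟩
    · obtain ⟨z, h1, h2⟩ := ih h
      exact ⟨z, near_succ.2 (Or.inr ⟨hx, z', hadj, h1⟩), h2⟩

/-- Induction principle: if a property of vertices in `A` goes from a vertex to its neighbours in `A`
then it goes along walks in `A`. -/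
theorem near_induct (P : V → Prop) (h : ∀ u v, u ∈ A → v ∈ A → G.Adj u v → P u → P v)
    (hn : Near G A n x y) (hx : P x) : P y := by
  obtain ⟨p, -, hp⟩ := hn
  induction p with
  | nil => exact hx
  | @cons u v w hadj q ih =>
    apply ih (h u v (hp u (by simp)) (hp v (by simp)) hadj hx)
    intro a ha
    exact hp a (by simp [ha])

/-- First exit: a walk in `A` from `x ∈ B` to `y ∉ B`. Its first part stays in `B`. (Induction on `n`
with `near_succ`.) -/
theorem near_exit (h : Near G A n x y) (hx : x ∈ B) (hy : y ∉ B) :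
    ∃ u v k l, k + 1 + l ≤ n ∧ Near G (A ∩ B) k x u ∧ G.Adj u v ∧ v ∉ B ∧ Near G A l v y := by
  induction n generalizing x with
  | zero =>
    obtain ⟨rfl, -⟩ := near_zero.1 h
    exact absurd hx hy
  | succ n ih =>
    rcases near_succ.1 h with h | ⟨hxA, z, hadj, h⟩
    · obtain ⟨u, v, k, l, h1, h2⟩ := ih h hx
      exact ⟨u, v, k, l, by omega, h2⟩
    · by_cases hz : z ∈ B
      · obtain ⟨u, v, k, l, h1, h2, h3⟩ := ih h hz
        exact ⟨u, v, k + 1, l, by omega, near_succ.2 (Or.inr ⟨⟨hxA, hx⟩, z, hadj, h2⟩), h3⟩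
      · exact ⟨x, z, 0, n, by omega, near_refl ⟨hxA, hx⟩, hadj, hz, h⟩

/-- If all vertices of walks of length `≤ n` starting at `x` in `A` are in `B` then the walk is in `B`. -/
theorem near_sub (h : Near G A n x y) (hB : ∀ z, Near G A n x z → z ∈ B) :
    Near G (A ∩ B) n x y := by
  obtain ⟨p, h1, h2⟩ := h
  refine ⟨p, h1, ?_⟩
  intro v hv
  refine ⟨h2 v hv, hB v ⟨p.takeUntil v hv, ?_, ?_⟩⟩
  · exact (p.length_takeUntil_le_length hv).trans h1
  · intro w hw
    exact h2 w (p.support_takeUntil_subset_support hv hw)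

end Pool.Agent.H.MP_c8cc4c_co
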