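import Mathlib
import Pool.Agent.H.MP_c8cc4c_co.B.Near

/-! # MP_c8cc4c_co, base file B5: chains -/

open scoped Classical
open Finset

noncomputable section

namespace Pool.Agent.H.MP_c8cc4c_co

variable {M : PC}

theorem zmod2_cases (a : ZMod 2) : a = 0 ∨ a = 1 := by
  revert a
  decide

theorem zmod2_ne_zero {a : ZMod 2} : a ≠ 0 ↔ a = 1 := by
  revert a
  decide

/-- the boundary of a face chain at an edge with the two faces `f`, `g` -/
theorem dF_eq (hM : M.IsSphere) {e : M.E} {f g : M.F} (hfg : f ≠ g) (hf : M.bd f e)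
    (hg : M.bd g e) (c : M.F → ZMod 2) : M.dF c e = c f + c g := by
  obtain ⟨f', g', hfg', hfe⟩ := hM.bd_two e
  have h1 : (univ.filter fun h => M.bd h e) = {f, g} := by
    ext h
    rw [Finset.mem_filter, Finset.mem_insert, Finset.mem_singleton, hfe]
    have hf' := (hfe f).1 hf
    have hg' := (hfe g).1 hg
    constructor
    · rintro ⟨-, h2⟩
      rcases hf' with rfl | rfl <;> rcases hg' with rfl | rfl <;> rcases h2 with rfl | rfl <;>
        simp_all
    · rintro (rfl | rfl)
      · exact ⟨mem_univ _, hf'⟩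
      · exact ⟨mem_univ _, hg'⟩
  unfold PC.dF
  rw [h1, Finset.sum_pair hfg]

/-- `dF c e = 0` iff `c` has the same value on the faces at `e` -/
theorem dF_zero_iff (hM : M.IsSphere) {e : M.E} (c : M.F → ZMod 2) :
    M.dF c e = 0 ↔ ∀ f g, M.bd f e → M.bd g e → c f = c g := by
  obtain ⟨f', g', hfg', hfe⟩ := hM.bd_two e
  rw [dF_eq hM hfg' ((hfe f').2 (Or.inl rfl)) ((hfe g').2 (Or.inr rfl)) c]
  have h2 := CharTwo.add_self_eq_zero (c g')
  constructor
  · intro h
    have h1 : c f' = c g' := by linear_combination h - h2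
    intro f g hf hg
    rcases (hfe f).1 hf with rfl | rfl <;> rcases (hfe g).1 hg with rfl | rfl <;> simp [h1]
  · intro h
    rw [h f' g' ((hfe f').2 (Or.inl rfl)) ((hfe g').2 (Or.inr rfl))]
    exact h2

theorem dF_ne_zero_iff (hM : M.IsSphere) {e : M.E} (c : M.F → ZMod 2) :
    M.dF c e ≠ 0 ↔ ∃ f g, M.bd f e ∧ M.bd g e ∧ c f = 1 ∧ c g = 0 := by
  rw [Ne, dF_zero_iff hM]
  constructor
  · intro h
    push Not at h
    obtain ⟨f, g, hf, hg, hfg⟩ := h
    rcases zmod2_cases (c f) with h1 | h1 <;> rcases zmod2_cases (c g) with h2 | h2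
    · exact absurd (h1.trans h2.symm) hfg
    · exact ⟨g, f, hg, hf, h2, h1⟩
    · exact ⟨f, g, hf, hg, h1, h2⟩
    · exact absurd (h1.trans h2.symm) hfg
  · rintro ⟨f, g, hf, hg, h1, h2⟩ h
    have h3 := h f g hf hg
    rw [h1, h2] at h3
    exact one_ne_zero h3

theorem dF_add (c c' : M.F → ZMod 2) : M.dF (c + c') = M.dF c + M.dF c' := by
  funext e
  simp only [PC.dF, Pi.add_apply, Finset.sum_add_distrib]

theorem dF_zero : M.dF (0 : M.F → ZMod 2) = 0 := by
  funext e
  simp only [PC.dF, Pi.zero_apply, Finset.sum_const_zero]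

/-- the complement has the same boundary -/
theorem dF_compl (hM : M.IsSphere) (c : M.F → ZMod 2) : M.dF (c + 1) = M.dF c := by
  funext e
  obtain ⟨f, g, hfg, hfe⟩ := hM.bd_two e
  rw [dF_eq hM hfg ((hfe f).2 (Or.inl rfl)) ((hfe g).2 (Or.inr rfl)),
    dF_eq hM hfg ((hfe f).2 (Or.inl rfl)) ((hfe g).2 (Or.inr rfl))]
  simp only [Pi.add_apply, Pi.one_apply]
  have h2 := CharTwo.add_self_eq_zero (1 : ZMod 2)
  linear_combination h2

theorem dE_add (z z' : M.E → ZMod 2) : M.dE (z + z') = M.dE z + M.dE z' := by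
  funext v
  simp only [PC.dE, Pi.add_apply, Finset.sum_add_distrib]

theorem ev_add {z z' : M.E → ZMod 2} (h : M.Ev z) (h' : M.Ev z') : M.Ev (z + z') := by
  intro v
  rw [dE_add, Pi.add_apply, h v, h' v, add_zero]

theorem ev_zero : M.Ev (0 : M.E → ZMod 2) := by
  intro v
  simp only [PC.dE, Pi.zero_apply, Finset.sum_const_zero]

/-- the boundary of a face is even at every vertex (`face_two`); so the boundary of a chain is even
(exchange the two sums) -/
theorem ev_dF (hM : M.IsSphere) (c : M.F → ZMod 2) : M.Ev (M.dF c) := by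
  intro v
  unfold PC.dE PC.dF
  have h1 : ∀ e, (∑ f ∈ univ.filter (fun f => M.bd f e), c f)
      = ∑ f, (if M.bd f e then c f else 0) := fun e => Finset.sum_filter _ _
  simp only [h1]
  rw [Finset.sum_filter]
  have h2 : ∀ e, (if M.inc e v then (∑ f, (if M.bd f e then c f else 0)) else 0)
      = ∑ f, (if M.bd f e ∧ M.inc e v then c f else 0) := by
    intro e
    by_cases he : M.inc e v <;> simp [he]
  simp only [h2]
  rw [Finset.sum_comm]
  apply Finset.sum_eq_zero
  intro f _
  rw [← Finset.sum_filter]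
  by_cases hf : M.At f v
  · obtain ⟨e, e', hee, hd⟩ := hM.face_two f v hf
    have h3 : (univ.filter fun d => M.bd f d ∧ M.inc d v) = {e, e'} := by
      ext d
      rw [Finset.mem_filter, Finset.mem_insert, Finset.mem_singleton, hd]
      simp
    rw [h3, Finset.sum_pair hee]
    exact CharTwo.add_self_eq_zero _
  · have h3 : (univ.filter fun d => M.bd f d ∧ M.inc d v) = ∅ := by
      rw [Finset.filter_eq_empty_iff]
      intro d _ hd'
      exact hf ⟨d, hd'⟩
    rw [h3, Finset.sum_empty]

/-- an even chain with an edge at `v` has another edge at `v` -/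
theorem ev_other {z : M.E → ZMod 2} (hz : M.Ev z) {e : M.E} {v : M.V} (he : z e ≠ 0)
    (hv : M.inc e v) : ∃ e', e' ≠ e ∧ z e' ≠ 0 ∧ M.inc e' v := by
  by_contra hcon
  push Not at hcon
  have h1 : M.dE z v = z e := by
    unfold PC.dE
    apply Finset.sum_eq_single e
    · intro e' he' hne
      rw [Finset.mem_filter] at he'
      by_contra h0
      exact hcon e' hne h0 he'.2
    · intro h
      exact (h (Finset.mem_filter.2 ⟨mem_univ _, hv⟩)).elim
  exact he (h1.symm.trans (hz v))

theorem wt_add_le (z z' : M.E → ZMod 2) : M.wt (z + z') ≤ M.wt z + M.wt z' := by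
  unfold PC.wt
  refine (Finset.card_le_card ?_).trans (Finset.card_union_le _ _)
  intro e he
  rw [Finset.mem_filter] at he
  rw [Finset.mem_union, Finset.mem_filter, Finset.mem_filter]
  by_contra hcon
  push Not at hcon
  apply he.2
  rw [Pi.add_apply, hcon.1 (mem_univ _), hcon.2 (mem_univ _), add_zero]

theorem wt_eq_zero (z : M.E → ZMod 2) : M.wt z = 0 ↔ z = 0 := by
  unfold PC.wt
  rw [Finset.card_eq_zero, Finset.filter_eq_empty_iff]
  constructor
  · intro h
    funext e
    by_contra h0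
    exact h (mem_univ e) h0
  · rintro rfl e - h
    exact h rfl

theorem wt_mono (z z' : M.E → ZMod 2) (h : ∀ e, z e ≠ 0 → z' e ≠ 0) : M.wt z ≤ M.wt z' := by
  unfold PC.wt
  apply Finset.card_le_card
  intro e he
  rw [Finset.mem_filter] at he ⊢
  exact ⟨mem_univ _, h e he.2⟩

/-- at most two vertices per edge -/
theorem vs_card (hM : M.IsSphere) (z : M.E → ZMod 2) : (M.vs z).ncard ≤ 2 * M.wt z := by
  have h1 : M.vs z ⊆ ((univ.filter fun e => z e ≠ 0).biUnion
      fun e => univ.filter fun v => M.inc e v : Finset M.V) := by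
    intro v hv
    obtain ⟨e, he, hev⟩ := hv
    rw [Finset.mem_coe, Finset.mem_biUnion]
    exact ⟨e, Finset.mem_filter.2 ⟨mem_univ _, he⟩, Finset.mem_filter.2 ⟨mem_univ _, hev⟩⟩
  have h2 := Set.ncard_le_ncard h1 (Finset.finite_toSet _)
  rw [Set.ncard_coe_finset] at h2
  refine h2.trans ?_
  have h3 := Finset.card_biUnion_le_card_mul (univ.filter fun e => z e ≠ 0)
    (fun e => univ.filter fun v => M.inc e v) 2 (by
      intro e _
      obtain ⟨x, y, hxy, hxe⟩ := hM.inc_two e
      have h4 : (univ.filter fun v => M.inc e v) = {x, y} := by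
        ext v
        rw [Finset.mem_filter, Finset.mem_insert, Finset.mem_singleton, hxe]
        simp
      show (univ.filter fun v => M.inc e v).card ≤ 2
      rw [h4]
      exact Finset.card_le_two)
  unfold PC.wt
  rw [mul_comm]
  exact h3

theorem vs_add (z z' : M.E → ZMod 2) : M.vs (z + z') ⊆ M.vs z ∪ M.vs z' := by
  rintro v ⟨e, he, hev⟩
  by_cases h1 : z e ≠ 0
  · exact Or.inl ⟨e, h1, hev⟩
  · right
    refine ⟨e, ?_, hev⟩
    intro h2
    push Not at h1
    apply he
    rw [Pi.add_apply, h1, h2, add_zero]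

/-- the number of edges of a sum -/
theorem wt_inter (z z' : M.E → ZMod 2) (h : ∀ e, z' e ≠ 0 → z e ≠ 0) :
    M.wt (z + z') + M.wt z' = M.wt z := by
  unfold PC.wt
  rw [← Finset.card_union_of_disjoint]
  · congr 1
    ext e
    rw [Finset.mem_union, Finset.mem_filter, Finset.mem_filter, Finset.mem_filter]
    have h1 := h e
    simp only [mem_univ, true_and, Pi.add_apply]
    rcases zmod2_cases (z e) with h2 | h2 <;> rcases zmod2_cases (z' e) with h3 | h3
    · simp [h2, h3]
    · exfalso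
      exact h1 (by rw [h3]; exact one_ne_zero) h2
    · simp [h2, h3]
    · simp [h2, h3]
  · rw [Finset.disjoint_left]
    intro e he he'
    rw [Finset.mem_filter] at he he'
    have h1 := h e he'.2
    rw [zmod2_ne_zero] at h1
    have h2 := zmod2_ne_zero.1 he'.2
    apply he.2
    rw [Pi.add_apply, h1, h2]
    exact CharTwo.add_self_eq_zero _

/-- every edge has a face -/
theorem exists_face (hM : M.IsSphere) (e : M.E) : ∃ f, M.bd f e := by
  obtain ⟨f, g, -, h⟩ := hM.bd_two e
  exact ⟨f, (h f).2 (Or.inl rfl)⟩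

/-- An edge joins its two ends. -/
theorem inc_adj (hM : M.IsSphere) {e : M.E} {x y : M.V} (hx : M.inc e x) (hy : M.inc e y)
    (hxy : x ≠ y) : M.graph.Adj x y := by
  exact ⟨hxy, e, hx, hy⟩

/-- other end of an edge -/
theorem other_end (hM : M.IsSphere) {e : M.E} {x : M.V} (hx : M.inc e x) :
    ∃ y, y ≠ x ∧ M.inc e y ∧ ∀ v, M.inc e v → v = x ∨ v = y := by
  obtain ⟨a, b, hab, h⟩ := hM.inc_two e
  rcases (h x).1 hx with rfl | rfl
  · exact ⟨b, hab.symm, (h b).2 (Or.inr rfl), fun v hv => (h v).1 hv⟩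
  · exact ⟨a, hab, (h a).2 (Or.inl rfl), fun v hv => ((h v).1 hv).symm⟩

end Pool.Agent.H.MP_c8cc4c_co
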