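import Mathlib
import Pool.Agent.H.MP_c8cc4c_co.B.Near

/-! # MP_c8cc4c_co, base file B2: connected sets, components -/

open scoped Classical
open Finset

noncomputable section

namespace Pool.Agent.H.MP_c8cc4c_co

variable {V : Type} {G : SimpleGraph V} {A B C : Set V} {x y z : V} {m n : ℕ}

theorem connOn_singleton (x : V) : ConnOn G {x} := by
  refine ⟨⟨x, rfl⟩, ?_⟩
  rintro a rfl b rfl
  exact ⟨0, near_refl rfl⟩

/-- union of two connected sets with a common vertex -/
theorem connOn_union (hA : ConnOn G A) (hB : ConnOn G B) (h : ∃ x ∈ A, x ∈ B) :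
    ConnOn G (A ∪ B) := by
  obtain ⟨x, hxA, hxB⟩ := h
  have key : ∀ y ∈ A ∪ B, ∃ n, Near G (A ∪ B) n x y := by
    rintro y (hy | hy)
    · obtain ⟨n, hn⟩ := hA.2 x hxA y hy
      exact ⟨n, near_mono hn le_rfl Set.subset_union_left⟩
    · obtain ⟨n, hn⟩ := hB.2 x hxB y hy
      exact ⟨n, near_mono hn le_rfl Set.subset_union_right⟩
  refine ⟨⟨x, Or.inl hxA⟩, ?_⟩
  intro y hy z hz
  obtain ⟨n, hn⟩ := key y hy
  obtain ⟨m, hm⟩ := key z hz
  exact ⟨n + m, near_trans (near_symm hn) hm⟩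

/-- union of two connected sets joined by an edge -/
theorem connOn_union_adj (hA : ConnOn G A) (hB : ConnOn G B) (h : ∃ x ∈ A, ∃ y ∈ B, G.Adj x y) :
    ConnOn G (A ∪ B) := by
  obtain ⟨x, hxA, y, hyB, hxy⟩ := h
  have h1 : ConnOn G (A ∪ {x, y}) := by
    refine connOn_union hA ⟨⟨x, Or.inl rfl⟩, ?_⟩ ⟨x, hxA, Or.inl rfl⟩
    have h2 : Near G ({x, y} : Set V) 1 x y := near_adj (Or.inl rfl) (Or.inr rfl) hxy
    rintro a (rfl | rfl) b (rfl | rfl)
    · exact ⟨0, near_refl (near_left h2)⟩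
    · exact ⟨1, h2⟩
    · exact ⟨1, near_symm h2⟩
    · exact ⟨0, near_refl (near_right h2)⟩
  have h3 := connOn_union h1 hB ⟨y, Or.inr (Or.inr rfl), hyB⟩
  have h4 : A ∪ {x, y} ∪ B = A ∪ B := by
    ext v
    simp only [Set.mem_union, Set.mem_insert_iff, Set.mem_singleton_iff]
    constructor
    · rintro ((h | rfl | rfl) | h)
      · exact Or.inl h
      · exact Or.inl hxA
      · exact Or.inr hyB
      · exact Or.inr h
    · rintro (h | h)
      · exact Or.inl (Or.inl h)
      · exact Or.inr h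
  rwa [h4] at h3

/-- union of a family of connected sets, all of which meet the first one -/
theorem connOn_iUnion {I : Type} (hA : ConnOn G A) (B : I → Set V) (hB : ∀ i, ConnOn G (B i))
    (h : ∀ i, ∃ x ∈ B i, x ∈ A) : ConnOn G (A ∪ ⋃ i, B i) := by
  obtain ⟨x, hx⟩ := hA.1
  have key : ∀ y ∈ A ∪ ⋃ i, B i, ∃ n, Near G (A ∪ ⋃ i, B i) n x y := by
    rintro y (hy | hy)
    · obtain ⟨n, hn⟩ := hA.2 x hx y hy
      exact ⟨n, near_mono hn le_rfl Set.subset_union_left⟩
    · obtain ⟨i, hi⟩ := Set.mem_iUnion.1 hy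
      obtain ⟨z, hzB, hzA⟩ := h i
      obtain ⟨n, hn⟩ := hA.2 x hx z hzA
      obtain ⟨m, hm⟩ := (hB i).2 z hzB y hi
      exact ⟨n + m, near_trans (near_mono hn le_rfl Set.subset_union_left)
        (near_mono hm le_rfl (fun v hv => Or.inr (Set.mem_iUnion.2 ⟨i, hv⟩)))⟩
  refine ⟨⟨x, Or.inl hx⟩, ?_⟩
  intro y hy z hz
  obtain ⟨n, hn⟩ := key y hy
  obtain ⟨m, hm⟩ := key z hz
  exact ⟨n + m, near_trans (near_symm hn) hm⟩

/-- to show that `A` is connected it is enough to join every vertex to one vertex -/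
theorem connOn_of_center (hx : x ∈ A) (h : ∀ y ∈ A, ∃ n, Near G A n x y) : ConnOn G A := by
  refine ⟨⟨x, hx⟩, ?_⟩
  intro y hy z hz
  obtain ⟨n, hn⟩ := h y hy
  obtain ⟨m, hm⟩ := h z hz
  exact ⟨n + m, near_trans (near_symm hn) hm⟩

/-- The support of a walk is connected. -/
theorem connOn_support {x y : V} (p : G.Walk x y) : ConnOn G {v | v ∈ p.support} := by
  apply connOn_of_center (x := x) (p.start_mem_support)
  intro v hv
  have hv' : v ∈ p.support := hv
  exact ⟨(p.takeUntil v hv').length, p.takeUntil v hv', le_rfl,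
    fun w hw => p.support_takeUntil_subset_support hv' hw⟩

/-- A connected set whose part in `B` is a proper nonempty part contains an edge leaving `B`. -/
theorem connOn_cross (hA : ConnOn G A) (hx : x ∈ A) (hxB : x ∈ B) (hy : y ∈ A) (hyB : y ∉ B) :
    ∃ u ∈ A, ∃ v ∈ A, u ∈ B ∧ v ∉ B ∧ G.Adj u v := by
  obtain ⟨n, hn⟩ := hA.2 x hx y hy
  obtain ⟨u, v, k, l, -, h1, h2, h3, h4⟩ := near_exit hn hxB hyB
  exact ⟨u, (near_right h1).1, v, near_left h4, (near_right h1).2, h3, h2⟩

/-- the component of `x` in `A` -/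
def comp (G : SimpleGraph V) (A : Set V) (x : V) : Set V := {y | ∃ n, Near G A n x y}

theorem comp_isComp (hx : x ∈ A) : IsComp G A (comp G A x) := by
  have hsub : ∀ y, y ∈ comp G A x → ∃ n, Near G (comp G A x) n x y := by
    rintro y ⟨n, hn⟩
    refine ⟨n, near_mono (near_sub (B := comp G A x) hn fun z hz => ⟨n, hz⟩) le_rfl
      Set.inter_subset_right⟩
  refine ⟨connOn_of_center ⟨0, near_refl hx⟩ hsub, ?_, ?_⟩
  · rintro y ⟨n, hn⟩
    exact near_right hn
  · rintro y ⟨n, hn⟩ z hz hyz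
    exact ⟨n + 1, near_trans hn (near_adj (near_right hn) hz hyz)⟩

theorem mem_comp_self (hx : x ∈ A) : x ∈ comp G A x := by
  exact ⟨0, near_refl hx⟩

/-- a component is the component of each of its elements -/
theorem isComp_eq (h : IsComp G A C) (hx : x ∈ C) : C = comp G A x := by
  apply Set.Subset.antisymm
  · intro y hy
    obtain ⟨n, hn⟩ := h.1.2 x hx y hy
    exact ⟨n, near_mono hn le_rfl h.2.1⟩
  · rintro y ⟨n, hn⟩
    refine near_induct (A := A) (P := fun v => v ∈ C) ?_ hn hx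
    intro u v _ hv huv hu
    exact h.2.2 u hu v hv huv

/-- two components with a common vertex are equal -/
theorem isComp_unique (h : IsComp G A B) (h' : IsComp G A C) (hx : x ∈ B) (hx' : x ∈ C) :
    B = C := by
  rw [isComp_eq h hx, isComp_eq h' hx']

/-- a connected set inside `A` which contains a vertex of the component `C` is inside `C` -/
theorem isComp_sub (h : IsComp G A C) (hB : ConnOn G B) (hBA : B ⊆ A) (hx : x ∈ B) (hx' : x ∈ C) :
    B ⊆ C := by
  intro y hy
  rw [isComp_eq h hx']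
  obtain ⟨n, hn⟩ := hB.2 x hx y hy
  exact ⟨n, near_mono hn le_rfl hBA⟩

end Pool.Agent.H.MP_c8cc4c_co
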