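import Mathlib
import Pool.Agent.H.MP_c8cc4c_co.B.Conn

/-! # MP_c8cc4c_co, base file B3: finite connected sets, balls -/

open scoped Classical
open Finset

noncomputable section

namespace Pool.Agent.H.MP_c8cc4c_co

variable {V : Type} {G : SimpleGraph V} {A B C : Set V} {x y z : V} {m n : ℕ}

/-- In a finite connected set `A` any two vertices are joined by a walk in `A` of length less than the
number of vertices of `A` (take a path: `Walk.toPath`, its support has no repetitions). -/
theorem connOn_near [Fintype V] (hA : ConnOn G A) (hx : x ∈ A) (hy : y ∈ A) :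
    Near G A (A.ncard - 1) x y := by
  obtain ⟨n, p, -, hp⟩ := hA.2 x hx y hy
  refine ⟨p.bypass, ?_, fun v hv => hp v (p.support_bypass_subset hv)⟩
  have h1 : p.bypass.support.Nodup := p.bypass_isPath.support_nodup
  have h2 : (p.bypass.support.toFinset : Set V) ⊆ A := by
    intro v hv
    rw [Finset.mem_coe, List.mem_toFinset] at hv
    exact hp v (p.support_bypass_subset hv)
  have h3 := Set.ncard_le_ncard h2 (Set.toFinite A)
  rw [Set.ncard_coe_finset, List.toFinset_card_of_nodup h1, SimpleGraph.Walk.length_support] at h3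
  omega

/-- A finite connected set with at least `k ≥ 1` vertices has a connected subset with exactly `k` vertices
which contains a given vertex. (Induction on `k`: if the connected subset `B` of `A` has `k < |A|`
elements, some edge leaves `B` inside `A` (`connOn_cross`), add its end.) -/
theorem connOn_subset [Fintype V] (hA : ConnOn G A) (hx : x ∈ A) (k : ℕ) (hk : 1 ≤ k)
    (hk' : k ≤ A.ncard) : ∃ B ⊆ A, ConnOn G B ∧ x ∈ B ∧ B.ncard = k := by
  induction k, hk using Nat.le_induction with
  | base =>
    exact ⟨{x}, by simpa using hx, connOn_singleton x, rfl, Set.ncard_singleton x⟩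
  | succ k hk ih =>
    obtain ⟨B, hBA, hB, hxB, hBk⟩ := ih (by omega)
    obtain ⟨y, hy, hyB⟩ := Set.exists_mem_notMem_of_ncard_lt_ncard (s := B) (t := A)
      (by omega) (Set.toFinite B)
    obtain ⟨u, hu, v, hv, huB, hvB, huv⟩ := connOn_cross hA hx hxB hy hyB
    refine ⟨insert v B, Set.insert_subset hv hBA, ?_, Or.inr hxB, ?_⟩
    · have h1 := connOn_union_adj hB (connOn_singleton (G := G) v) ⟨u, huB, v, rfl, huv⟩
      rw [Set.union_singleton] at h1
      exact h1
    · rw [Set.ncard_insert_of_notMem hvB (Set.toFinite B), hBk]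

/-- Balls: if every vertex has at most `D` neighbours, at most `(D+1)^n` vertices are within
distance `n` of `x`. (Induction on `n` with `near_succ'`.) -/
theorem ball_card [Fintype V] (D : ℕ) (hD : ∀ v, (univ.filter fun u => G.Adj v u).card ≤ D)
    (A : Set V) (n : ℕ) (x : V) : (univ.filter fun y => Near G A n x y).card ≤ (D + 1) ^ n := by
  induction n with
  | zero =>
    rw [pow_zero]
    apply Finset.card_le_one.2
    intro a ha b hb
    rw [Finset.mem_filter] at ha hb
    exact (near_zero.1 ha.2).1.symm.trans (near_zero.1 hb.2).1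
  | succ n ih =>
    have h1 : (univ.filter fun y => Near G A (n + 1) x y) ⊆
        (univ.filter fun y => Near G A n x y) ∪
        (univ.filter fun y => Near G A n x y).biUnion (fun v => univ.filter fun u => G.Adj v u) := by
      intro y hy
      rw [Finset.mem_filter] at hy
      rw [Finset.mem_union, Finset.mem_filter, Finset.mem_biUnion]
      rcases near_succ'.1 hy.2 with h | ⟨-, z, hz, h⟩
      · exact Or.inl ⟨mem_univ _, h⟩
      · exact Or.inr ⟨z, Finset.mem_filter.2 ⟨mem_univ _, h⟩,
          Finset.mem_filter.2 ⟨mem_univ _, hz⟩⟩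
    have h2 := Finset.card_biUnion_le_card_mul (univ.filter fun y => Near G A n x y)
      (fun v => univ.filter fun u => G.Adj v u) D (fun v _ => hD v)
    calc _ ≤ _ := Finset.card_le_card h1
      _ ≤ _ := Finset.card_union_le _ _
      _ ≤ (univ.filter fun y => Near G A n x y).card * (D + 1) := by
          rw [Nat.mul_succ, Nat.add_comm]
          exact Nat.add_le_add_right h2 _
      _ ≤ (D + 1) ^ n * (D + 1) := Nat.mul_le_mul_right _ ih
      _ = _ := (pow_succ _ _).symm

/-- Neighbourhoods of sets. -/
theorem ball_card_set [Fintype V] (D : ℕ) (hD : ∀ v, (univ.filter fun u => G.Adj v u).card ≤ D)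
    (A : Set V) (n : ℕ) (X : Set V) :
    (univ.filter fun y => ∃ x ∈ X, Near G A n x y).card ≤ X.ncard * (D + 1) ^ n := by
  have h1 : (univ.filter fun y => ∃ x ∈ X, Near G A n x y) ⊆
      X.toFinset.biUnion (fun x => univ.filter fun y => Near G A n x y) := by
    intro y hy
    rw [Finset.mem_filter] at hy
    obtain ⟨-, x, hx, h⟩ := hy
    rw [Finset.mem_biUnion]
    exact ⟨x, Set.mem_toFinset.2 hx, Finset.mem_filter.2 ⟨mem_univ _, h⟩⟩
  refine (Finset.card_le_card h1).trans ?_
  rw [Set.ncard_eq_toFinset_card']
  exact Finset.card_biUnion_le_card_mul _ _ _ (fun x _ => ball_card D hD A n x)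

end Pool.Agent.H.MP_c8cc4c_co
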