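import Mathlib
import Pool.Agent.H.MP_c8cc4c_co.B.Chain

/-! # MP_c8cc4c_co, base file B6: consequences of the star property -/

open scoped Classical
open Finset

noncomputable section

namespace Pool.Agent.H.MP_c8cc4c_co

variable {M : PC}

/-- STAR in the form used everywhere: away from its boundary a chain is constant around a vertex -/
theorem star_const (hM : M.IsSphere) {c : M.F → ZMod 2} {x : M.V} (hx : x ∉ M.vs (M.dF c))
    {f g : M.F} (hf : M.At f x) (hg : M.At g x) : c f = c g := by
  apply hM.star x c _ f g hf hg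
  intro e he
  by_contra h
  exact hx ⟨e, h, he⟩

/-- adjacent vertices have a common face -/
theorem adj_face (hM : M.IsSphere) {x y : M.V} (h : M.graph.Adj x y) : ∃ f, M.At f x ∧ M.At f y := by
  obtain ⟨-, e, h1, h2⟩ := h
  obtain ⟨f, hf⟩ := exists_face hM e
  exact ⟨f, ⟨e, hf, h1⟩, ⟨e, hf, h2⟩⟩

/-- if there are two vertices, every vertex has a neighbour, hence a face -/
theorem exists_at (hM : M.IsSphere) {x y : M.V} (hxy : x ≠ y) : ∃ f, M.At f x := by
  obtain ⟨n, hn⟩ := hM.conn x y
  obtain ⟨u, v, k, l, -, h1, h2, h3, -⟩ := near_exit (B := {x}) hn rfl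
    (by simpa using hxy.symm)
  have hu : u = x := (near_right h1).2
  rw [hu] at h2
  obtain ⟨f, hf, -⟩ := adj_face hM h2
  exact ⟨f, hf⟩

/-- Walks in a vertex set which avoids the boundary do not change the value of a chain. -/
theorem near_const (hM : M.IsSphere) {c : M.F → ZMod 2} {A : Set M.V} {n : ℕ} {x y : M.V}
    (hA : ∀ v ∈ A, v ∉ M.vs (M.dF c)) (h : Near M.graph A n x y) {f g : M.F} (hf : M.At f x)
    (hg : M.At g y) : c f = c g := by
  have key := near_induct (G := M.graph) (A := A)
    (P := fun v => ∀ f', M.At f' v → c f' = c f) ?_ h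
    (fun f' hf' => star_const hM (hA x (near_left h)) hf' hf)
  · exact (key g hg).symm
  · intro u v hu hv huv hP f' hf'
    obtain ⟨f1, h1, h2⟩ := adj_face hM huv
    rw [star_const hM (hA v hv) hf' h2]
    exact hP f1 h1

/-- a chain without boundary is constant -/
theorem const_of_dF (hM : M.IsSphere) {c : M.F → ZMod 2} (h : M.dF c = 0) (f g : M.F) :
    c f = c g := by
  have hat : ∀ f : M.F, ∃ v, M.At f v := by
    intro f
    obtain ⟨e, he⟩ := hM.face_ne f
    obtain ⟨x, y, -, hxe⟩ := hM.inc_two e
    exact ⟨x, e, he, (hxe x).2 (Or.inl rfl)⟩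
  obtain ⟨x, hx⟩ := hat f
  obtain ⟨y, hy⟩ := hat g
  obtain ⟨n, hn⟩ := hM.conn x y
  apply near_const hM _ hn hx hy
  intro v _ hv
  obtain ⟨e, he, -⟩ := hv
  rw [h] at he
  exact he rfl

/-- two chains with the same boundary are equal or complementary -/
theorem dF_inj (hM : M.IsSphere) {c c' : M.F → ZMod 2} (h : M.dF c = M.dF c') :
    c = c' ∨ c = c' + 1 := by
  have h1 : M.dF (c + c') = 0 := by
    rw [dF_add, h]
    funext e
    exact CharTwo.add_self_eq_zero _
  have h2 := const_of_dF hM h1
  by_cases hF : Nonempty M.F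
  · obtain ⟨f0⟩ := hF
    rcases zmod2_cases ((c + c') f0) with h3 | h3
    · left
      funext f
      have h4 := h2 f f0
      rw [h3, Pi.add_apply] at h4
      have h5 := CharTwo.add_self_eq_zero (c' f)
      linear_combination h4 - h5
    · right
      funext f
      have h4 := h2 f f0
      rw [h3, Pi.add_apply] at h4
      have h5 := CharTwo.add_self_eq_zero (c' f)
      rw [Pi.add_apply, Pi.one_apply]
      linear_combination h4 - h5
  · left
    funext f
    exact absurd ⟨f⟩ hF

/-- number of neighbours is at most the degree -/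
theorem nbr_card (hM : M.IsSphere) (v : M.V) :
    (univ.filter fun u => M.graph.Adj v u).card ≤ M.deg v := by
  unfold PC.deg
  have h1 : ∀ u ∈ (univ.filter fun u => M.graph.Adj v u), ∃ e, M.inc e v ∧ M.inc e u ∧ v ≠ u := by
    intro u hu
    rw [Finset.mem_filter] at hu
    obtain ⟨-, hne, e, h1, h2⟩ := hu
    exact ⟨e, h1, h2, hne⟩
  rcases isEmpty_or_nonempty M.E with hE | hE
  · rw [Finset.card_eq_zero.2]
    · exact Nat.zero_le _
    · rw [Finset.eq_empty_iff_forall_notMem]
      intro u hu
      obtain ⟨e, -⟩ := h1 u hu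
      exact hE.false e
  choose! φ hφ using h1
  apply Finset.card_le_card_of_injOn φ
  · intro u hu
    have h2 := hφ u hu
    exact Finset.mem_coe.2 (Finset.mem_filter.2 ⟨mem_univ _, h2.1⟩)
  · intro u hu w hw huw
    obtain ⟨h1, h2, h3⟩ := hφ u hu
    obtain ⟨h4, h5, h6⟩ := hφ w hw
    rw [← huw] at h4 h5
    obtain ⟨y, hy, -, hy2⟩ := other_end hM h1
    rcases hy2 u h2 with h | h
    · exact absurd h.symm h3
    · rcases hy2 w h5 with h' | h'
      · exact absurd h'.symm h6
      · rw [h, h']

end Pool.Agent.H.MP_c8cc4c_co
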