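import Mathlib
import Pool.Agent.H.MP_c8cc4c_co.B.Star

/-! # MP_c8cc4c_co, base file B7: chains of walks, quads -/

open scoped Classical
open Finset

noncomputable section

namespace Pool.Agent.H.MP_c8cc4c_co

variable {M : PC}

theorem path_ends (hM : M.IsSphere) {e : M.E} {x y : M.V} (hxy : x ≠ y) (hx : M.inc e x)
    (hy : M.inc e y) (v : M.V) : M.inc e v ↔ v = x ∨ v = y := by
  obtain ⟨a, b, hab, h⟩ := hM.inc_two e
  rw [h v]
  rcases (h x).1 hx with rfl | rfl <;> rcases (h y).1 hy with rfl | rfl
  · exact absurd rfl hxy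
  · exact Iff.rfl
  · exact or_comm
  · exact absurd rfl hxy

theorem path_dE_apply (e : M.E) (v : M.V) :
    M.dE (Pi.single e 1) v = if M.inc e v then 1 else 0 := by
  unfold PC.dE
  rw [Finset.sum_pi_single']
  simp

theorem path_two (a : M.V → ZMod 2) : a + a = 0 := by
  funext v
  exact CharTwo.add_self_eq_zero _

/-- `dE` of one edge -/
theorem dE_single (hM : M.IsSphere) {e : M.E} {x y : M.V} (hxy : x ≠ y) (hx : M.inc e x)
    (hy : M.inc e y) : M.dE (Pi.single e 1) = Pi.single x 1 + Pi.single y 1 := by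
  funext v
  rw [path_dE_apply, Pi.add_apply]
  by_cases h : M.inc e v
  · rw [if_pos h]
    rcases (path_ends hM hxy hx hy v).1 h with rfl | rfl
    · rw [Pi.single_eq_same, Pi.single_eq_of_ne hxy, add_zero]
    · rw [Pi.single_eq_same, Pi.single_eq_of_ne (Ne.symm hxy), zero_add]
  · rw [if_neg h]
    have h1 : v ≠ x := fun hh => h (hh ▸ hx)
    have h2 : v ≠ y := fun hh => h (hh ▸ hy)
    rw [Pi.single_eq_of_ne h1, Pi.single_eq_of_ne h2, add_zero]

theorem path_wt_single (e : M.E) : M.wt (Pi.single e 1) ≤ 1 := by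
  unfold PC.wt
  refine (Finset.card_le_card (t := {e}) ?_).trans (by simp)
  intro d hd
  rw [Finset.mem_filter] at hd
  rw [Finset.mem_singleton]
  by_contra hne
  exact hd.2 (Pi.single_eq_of_ne hne _)

/-- The chain of a walk: it has boundary `δ_x + δ_y`, at most `n` edges, and its edges lie in `A`, within
distance `n` of `x`. (Induction on `n` with `near_succ`.) -/
theorem path_chain (hM : M.IsSphere) {A : Set M.V} {n : ℕ} {x y : M.V}
    (h : Near M.graph A n x y) : ∃ z : M.E → ZMod 2, M.dE z = Pi.single x 1 + Pi.single y 1 ∧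
      M.wt z ≤ n ∧ ∀ e, z e ≠ 0 → ∀ v, M.inc e v → v ∈ A ∧ Near M.graph A n x v := by
  induction n generalizing x with
  | zero =>
    obtain ⟨rfl, hx⟩ := near_zero.1 h
    refine ⟨0, ?_, ?_, ?_⟩
    · rw [path_two]
      funext v
      unfold PC.dE
      simp
    · rw [(wt_eq_zero 0).2 rfl]
    · intro e he
      exact absurd rfl he
  | succ n ih =>
    rcases near_succ.1 h with h1 | ⟨hx, u, hu, h1⟩
    · obtain ⟨z, hz1, hz2, hz3⟩ := ih h1
      exact ⟨z, hz1, by omega, fun e he v hv =>
        ⟨(hz3 e he v hv).1, near_mono (hz3 e he v hv).2 (Nat.le_succ n) (Set.Subset.refl _)⟩⟩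
    · obtain ⟨z, hz1, hz2, hz3⟩ := ih h1
      obtain ⟨hne, e, hex, heu⟩ := hu
      refine ⟨z + Pi.single e 1, ?_, ?_, ?_⟩
      · rw [dE_add, hz1, dE_single hM hne hex heu]
        have h2 := path_two (M := M) (Pi.single u 1)
        calc (Pi.single u 1 + Pi.single y 1 + (Pi.single x 1 + Pi.single u 1) : M.V → ZMod 2) =
            (Pi.single x 1 + Pi.single y 1) + (Pi.single u 1 + Pi.single u 1) := by abel
          _ = Pi.single x 1 + Pi.single y 1 := by rw [h2, add_zero]
      · have h3 := wt_add_le z (Pi.single e 1)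
        have h4 := path_wt_single e
        omega
      · intro d hd v hv
        by_cases hde : d = e
        · subst hde
          have hua : u ∈ A := near_left h1
          rcases (path_ends hM hne hex heu v).1 hv with rfl | rfl
          · exact ⟨hx, near_mono (near_refl hx) (Nat.zero_le _) (Set.Subset.refl _)⟩
          · exact ⟨hua, near_mono (near_adj hx hua ⟨hne, d, hex, heu⟩) (by omega)
              (Set.Subset.refl _)⟩
        · have h5 : z d ≠ 0 := by
            intro h6
            apply hd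
            rw [Pi.add_apply, h6, Pi.single_eq_of_ne hde, add_zero]
          exact ⟨(hz3 d h5 v hv).1,
            near_succ.2 (Or.inr ⟨hx, u, ⟨hne, e, hex, heu⟩, (hz3 d h5 v hv).2⟩)⟩

/-- four values, cyclically -/
def path_c4 {α : Type*} (a b c d : α) (t : ℕ) : α :=
  if t % 4 = 0 then a else if t % 4 = 1 then b else if t % 4 = 2 then c else d

theorem path_c4_per {α : Type*} (a b c d : α) (t : ℕ) :
    path_c4 a b c d (t + 4) = path_c4 a b c d t := by
  unfold path_c4
  rw [Nat.add_mod_right]

theorem path_c4_inj {α : Type*} {a b c d : α} (h1 : a ≠ b) (h2 : a ≠ c) (h3 : a ≠ d) (h4 : b ≠ c)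
    (h5 : b ≠ d) (h6 : c ≠ d) (s t : ℕ) (hs : s < 4) (ht : t < 4)
    (h : path_c4 a b c d s = path_c4 a b c d t) : s = t := by
  unfold path_c4 at h
  rw [Nat.mod_eq_of_lt hs, Nat.mod_eq_of_lt ht] at h
  interval_cases s <;> interval_cases t <;> simp_all

theorem path_c4_ex {α : Type*} {a b c d : α} (x : α) :
    (∃ t < 4, path_c4 a b c d t = x) ↔ x = a ∨ x = b ∨ x = c ∨ x = d := by
  constructor
  · rintro ⟨t, ht, rfl⟩
    unfold path_c4
    rw [Nat.mod_eq_of_lt ht]
    interval_cases t <;> simp
  · rintro (rfl | rfl | rfl | rfl)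
    · exact ⟨0, by omega, rfl⟩
    · exact ⟨1, by omega, rfl⟩
    · exact ⟨2, by omega, rfl⟩
    · exact ⟨3, by omega, rfl⟩

/-- the other edge of a face at a vertex -/
theorem path_other (hM : M.IsSphere) {f : M.F} {e : M.E} {v : M.V} (he : M.bd f e)
    (hv : M.inc e v) : ∃ e', e' ≠ e ∧ M.bd f e' ∧ M.inc e' v ∧
      ∀ d, M.bd f d → M.inc d v → d = e ∨ d = e' := by
  obtain ⟨a, b, hab, h⟩ := hM.face_two f v ⟨e, he, hv⟩
  rcases (h e).1 ⟨he, hv⟩ with rfl | rfl
  · exact ⟨b, hab.symm, ((h b).2 (Or.inr rfl)).1, ((h b).2 (Or.inr rfl)).2,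
      fun d h1 h2 => (h d).1 ⟨h1, h2⟩⟩
  · exact ⟨a, hab, ((h a).2 (Or.inl rfl)).1, ((h a).2 (Or.inl rfl)).2,
      fun d h1 h2 => ((h d).1 ⟨h1, h2⟩).symm⟩

/-- an even set of edges of a face with an edge has at least four elements -/
theorem path_small (hM : M.IsSphere) (hQ : M.Quad) {f : M.F} {z : M.E → ZMod 2} (hz : M.dE z = 0)
    (s : Finset M.E) (hs : s.card < 4) (h1 : ∀ e, z e ≠ 0 → e ∈ s) (h2 : ∀ e ∈ s, M.bd f e)
    {e : M.E} (he : z e ≠ 0) : False := by
  have hev : M.Ev z := fun v => congrFun hz v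
  rcases hM.face_cyc f z hev (fun e he => h2 e (h1 e he)) with h | h
  · exact he (congrFun h e)
  · have h3 : (univ.filter fun e => M.bd f e) ⊆ s := by
      intro d hd
      exact h1 d (h d (Finset.mem_filter.1 hd).2)
    have h4 := Finset.card_le_card h3
    have h5 := hQ f
    unfold PC.len at h5
    omega

/-- The chain of the edges of a face: the vertices of a face of a quadrangulation in cyclic order. -/
theorem quad_cycle (hM : M.IsSphere) (hQ : M.Quad) (f : M.F) : ∃ (v : ℕ → M.V) (e : ℕ → M.E),
    (∀ t, v (t + 4) = v t) ∧ (∀ t, e (t + 4) = e t) ∧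
    (∀ s t, s < 4 → t < 4 → v s = v t → s = t) ∧ (∀ s t, s < 4 → t < 4 → e s = e t → s = t) ∧
    (∀ t, M.inc (e t) (v t) ∧ M.inc (e t) (v (t + 1))) ∧ (∀ d, M.bd f d ↔ ∃ t < 4, e t = d) ∧
    (∀ x, M.At f x ↔ ∃ t < 4, v t = x) := by
  obtain ⟨e0, hb0⟩ := hM.face_ne f
  obtain ⟨v0, v1, h01, hi0⟩ := hM.inc_two e0
  have i00 : M.inc e0 v0 := (hi0 v0).2 (Or.inl rfl)
  have i01 : M.inc e0 v1 := (hi0 v1).2 (Or.inr rfl)
  obtain ⟨e1, he1, hb1, i11, ho1⟩ := path_other hM hb0 i01
  obtain ⟨v2, h21, i12, hi1⟩ := other_end hM i11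
  have h20 : v2 ≠ v0 := by
    intro h
    rw [h] at i12 h21
    refine path_small hM hQ (z := Pi.single e0 1 + Pi.single e1 1) ?_ {e0, e1}
      (lt_of_le_of_lt (Finset.card_le_two) (by omega)) ?_ ?_ (f := f) (e := e0) ?_
    · rw [dE_add, dE_single hM h01 i00 i01, dE_single hM h01 i12 i11, path_two]
    · intro d hd
      by_contra hc
      simp only [Finset.mem_insert, Finset.mem_singleton, not_or] at hc
      exact hd (by rw [Pi.add_apply, Pi.single_eq_of_ne hc.1, Pi.single_eq_of_ne hc.2, add_zero])
    · intro d hd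
      simp only [Finset.mem_insert, Finset.mem_singleton] at hd
      rcases hd with rfl | rfl
      · exact hb0
      · exact hb1
    · rw [Pi.add_apply, Pi.single_eq_same, Pi.single_eq_of_ne he1.symm, add_zero]
      exact one_ne_zero
  obtain ⟨e2, he2, hb2, i22, ho2⟩ := path_other hM hb1 i12
  have he20 : e2 ≠ e0 := by
    intro h
    rw [h] at i22
    rcases (hi0 v2).1 i22 with h' | h'
    · exact h20 h'
    · exact h21 h'
  obtain ⟨v3, h32, i23, hi2⟩ := other_end hM i22
  have h31 : v3 ≠ v1 := by
    intro h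
    rw [h] at i23
    refine path_small hM hQ (z := Pi.single e1 1 + Pi.single e2 1) ?_ {e1, e2}
      (lt_of_le_of_lt (Finset.card_le_two) (by omega)) ?_ ?_ (f := f) (e := e1) ?_
    · rw [dE_add, dE_single hM h21 i12 i11, dE_single hM h21 i22 i23, path_two]
    · intro d hd
      by_contra hc
      simp only [Finset.mem_insert, Finset.mem_singleton, not_or] at hc
      exact hd (by rw [Pi.add_apply, Pi.single_eq_of_ne hc.1, Pi.single_eq_of_ne hc.2, add_zero])
    · intro d hd
      simp only [Finset.mem_insert, Finset.mem_singleton] at hd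
      rcases hd with rfl | rfl
      · exact hb1
      · exact hb2
    · rw [Pi.add_apply, Pi.single_eq_same, Pi.single_eq_of_ne he2.symm, add_zero]
      exact one_ne_zero
  have h30 : v3 ≠ v0 := by
    intro h
    rw [h] at i23
    refine path_small hM hQ (z := Pi.single e0 1 + Pi.single e1 1 + Pi.single e2 1) ?_ {e0, e1, e2}
      (lt_of_le_of_lt (Finset.card_le_three) (by omega)) ?_ ?_ (f := f) (e := e0) ?_
    · rw [dE_add, dE_add, dE_single hM h01 i00 i01, dE_single hM h21 i12 i11,
        dE_single hM h20 i22 i23]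
      have e1 := path_two (M := M) (Pi.single v0 1)
      have e2 := path_two (M := M) (Pi.single v1 1)
      have e3 := path_two (M := M) (Pi.single v2 1)
      calc (Pi.single v0 1 + Pi.single v1 1 + (Pi.single v2 1 + Pi.single v1 1) +
            (Pi.single v2 1 + Pi.single v0 1) : M.V → ZMod 2) =
          (Pi.single v0 1 + Pi.single v0 1) + (Pi.single v1 1 + Pi.single v1 1) +
            (Pi.single v2 1 + Pi.single v2 1) := by abel
        _ = 0 := by rw [e1, e2, e3]; simp
    · intro d hd
      by_contra hc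
      simp only [Finset.mem_insert, Finset.mem_singleton, not_or] at hc
      exact hd (by rw [Pi.add_apply, Pi.add_apply, Pi.single_eq_of_ne hc.1,
        Pi.single_eq_of_ne hc.2.1, Pi.single_eq_of_ne hc.2.2, add_zero, add_zero])
    · intro d hd
      simp only [Finset.mem_insert, Finset.mem_singleton] at hd
      rcases hd with rfl | rfl | rfl
      · exact hb0
      · exact hb1
      · exact hb2
    · rw [Pi.add_apply, Pi.add_apply, Pi.single_eq_same, Pi.single_eq_of_ne he1.symm,
        Pi.single_eq_of_ne he20.symm, add_zero, add_zero]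
      exact one_ne_zero
  obtain ⟨e3, he3, hb3, i33, ho3⟩ := path_other hM hb2 i23
  have he30 : e3 ≠ e0 := by
    intro h
    rw [h] at i33
    rcases (hi0 v3).1 i33 with h' | h'
    · exact h30 h'
    · exact h31 h'
  have he31 : e3 ≠ e1 := by
    intro h
    rw [h] at i33
    rcases hi1 v3 i33 with h' | h'
    · exact h31 h'
    · exact h32 h'
  obtain ⟨v4, h43, i34, hi3⟩ := other_end hM i33
  -- the edges of the face
  have hall : ∀ d, M.bd f d ↔ d = e0 ∨ d = e1 ∨ d = e2 ∨ d = e3 := by
    have h5 := hQ f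
    unfold PC.len at h5
    have h6 : ({e0, e1, e2, e3} : Finset M.E).card = 4 := by
      rw [Finset.card_insert_of_notMem, Finset.card_insert_of_notMem, Finset.card_insert_of_notMem,
        Finset.card_singleton]
      · simpa using he3.symm
      · simp only [Finset.mem_insert, Finset.mem_singleton, not_or]
        exact ⟨he2.symm, he31.symm⟩
      · simp only [Finset.mem_insert, Finset.mem_singleton, not_or]
        exact ⟨he1.symm, he20.symm, he30.symm⟩
    have h7 : ({e0, e1, e2, e3} : Finset M.E) ⊆ univ.filter fun e => M.bd f e := by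
      intro d hd
      simp only [Finset.mem_insert, Finset.mem_singleton] at hd
      rw [Finset.mem_filter]
      refine ⟨Finset.mem_univ _, ?_⟩
      rcases hd with rfl | rfl | rfl | rfl
      · exact hb0
      · exact hb1
      · exact hb2
      · exact hb3
    have h8 := Finset.eq_of_subset_of_card_le h7 (by omega)
    intro d
    have h9 : d ∈ ({e0, e1, e2, e3} : Finset M.E) ↔ d ∈ univ.filter fun e => M.bd f e := by
      rw [h8]
    simp only [Finset.mem_insert, Finset.mem_singleton, Finset.mem_filter, Finset.mem_univ,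
      true_and] at h9
    exact h9.symm
  have h40 : v4 = v0 := by
    obtain ⟨e', he', hb', i', ho'⟩ := path_other hM hb3 i34
    -- `e'` is one of the first three edges
    rcases (hall e').1 hb' with rfl | rfl | rfl | rfl
    · rcases (hi0 v4).1 i' with h | h
      · exact h
      · exfalso
        subst h
        rcases ho1 e3 hb3 i34 with h' | h'
        · exact he30 h'
        · exact he31 h'
    · rcases hi1 v4 i' with h | h
      · exfalso
        subst h
        rcases ho1 e3 hb3 i34 with h' | h'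
        · exact he30 h'
        · exact he31 h'
      · exfalso
        subst h
        rcases ho2 e3 hb3 i34 with h' | h'
        · exact he31 h'
        · exact he3 h'
    · rcases hi2 v4 i' with h | h
      · exfalso
        subst h
        rcases ho2 e3 hb3 i34 with h' | h'
        · exact he31 h'
        · exact he3 h'
      · exact absurd h h43
    · exact absurd rfl he'
  subst h40
  have inc_all : ∀ t, M.inc (path_c4 e0 e1 e2 e3 t) (path_c4 v4 v1 v2 v3 t) ∧
      M.inc (path_c4 e0 e1 e2 e3 t) (path_c4 v4 v1 v2 v3 (t + 1)) := by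
    intro t
    unfold path_c4
    have h4 : t % 4 < 4 := Nat.mod_lt _ (by omega)
    have h5 : t % 4 = 0 ∨ t % 4 = 1 ∨ t % 4 = 2 ∨ t % 4 = 3 := by omega
    rcases h5 with h | h | h | h
    · have h' : (t + 1) % 4 = 1 := by omega
      simp only [h, h']
      exact ⟨i00, i01⟩
    · have h' : (t + 1) % 4 = 2 := by omega
      simp only [h, h']
      exact ⟨i11, i12⟩
    · have h' : (t + 1) % 4 = 3 := by omega
      simp only [h, h']
      exact ⟨i22, i23⟩
    · have h' : (t + 1) % 4 = 0 := by omega
      simp only [h, h']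
      exact ⟨i33, i34⟩
  refine ⟨path_c4 v4 v1 v2 v3, path_c4 e0 e1 e2 e3, path_c4_per _ _ _ _, path_c4_per _ _ _ _,
    path_c4_inj h01 h20.symm h30.symm h21.symm h31.symm h32.symm,
    path_c4_inj he1.symm he20.symm he30.symm he2.symm he31.symm he3.symm, inc_all, ?_, ?_⟩
  · intro d
    rw [hall d, path_c4_ex]
  · intro x
    rw [path_c4_ex]
    constructor
    · rintro ⟨d, hd, hx⟩
      rcases (hall d).1 hd with rfl | rfl | rfl | rfl
      · rcases (hi0 x).1 hx with h | h <;> tauto
      · rcases hi1 x hx with h | h <;> tauto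
      · rcases hi2 x hx with h | h <;> tauto
      · rcases hi3 x hx with h | h <;> tauto
    · rintro (rfl | rfl | rfl | rfl)
      · exact ⟨e0, hb0, i00⟩
      · exact ⟨e0, hb0, i01⟩
      · exact ⟨e1, hb1, i12⟩
      · exact ⟨e2, hb2, i23⟩

/-- In a quadrangulation every even chain has an even number of edges: `|z|` mod 2 is the sum of all
`z e`, which is the sum over the faces of `c f * 4`. -/
theorem even_wt (hM : M.IsSphere) (hQ : M.Quad) {z : M.E → ZMod 2} (hz : M.Ev z) :
    Even (M.wt z) := by
  obtain ⟨c, hc⟩ := hM.h1 z hz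
  have h1 : (M.wt z : ZMod 2) = ∑ e, z e := by
    unfold PC.wt
    rw [Finset.card_filter, Nat.cast_sum]
    refine Finset.sum_congr rfl fun e _ => ?_
    rcases zmod2_cases (z e) with h | h
    · rw [if_neg (by rw [h]; simp), h]; simp
    · rw [if_pos (by rw [h]; exact one_ne_zero), h]; simp
  have h2 : ∑ e, z e = 0 := by
    rw [← hc]
    unfold PC.dF
    have h3 : ∀ e : M.E, ∑ f ∈ univ.filter (fun f => M.bd f e), c f =
        ∑ f, if M.bd f e then c f else 0 := fun e => Finset.sum_filter _ _
    rw [Finset.sum_congr rfl fun e _ => h3 e, Finset.sum_comm]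
    refine Finset.sum_eq_zero fun f _ => ?_
    rw [← Finset.sum_filter, Finset.sum_const]
    have h4 := hQ f
    unfold PC.len at h4
    rw [h4, nsmul_eq_mul]
    have h5 : ((4 : ℕ) : ZMod 2) = 0 := by decide
    rw [h5, zero_mul]
  rw [h2] at h1
  exact (ZMod.natCast_eq_zero_iff_even).1 h1

end Pool.Agent.H.MP_c8cc4c_co
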