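import Mathlib
import Pool.Agent.H.MP_c8cc4c_co.B.Near

/-! # MP_c8cc4c_co, base file B4: distance to a set -/

open scoped Classical
open Finset

noncomputable section

namespace Pool.Agent.H.MP_c8cc4c_co

variable {V : Type} {G : SimpleGraph V} {A B C : Set V} {x y z : V} {m n : ℕ}

/-- distance from `x` to the set `L` in the graph induced by `A` (`0` if there is none) -/
def sdist (G : SimpleGraph V) (A L : Set V) (x : V) : ℕ := sInf {k | ∃ l ∈ L, Near G A k x l}

theorem sdist_le (L : Set V) (hl : y ∈ L) (h : Near G A n x y) : sdist G A L x ≤ n := by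
  exact Nat.sInf_le ⟨y, hl, h⟩

/-- the distance is attained -/
theorem sdist_near (L : Set V) (h : ∃ l ∈ L, ∃ k, Near G A k x l) :
    ∃ l ∈ L, Near G A (sdist G A L x) x l := by
  obtain ⟨l, hl, k, hk⟩ := h
  have h1 : {k | ∃ l ∈ L, Near G A k x l}.Nonempty := ⟨k, l, hl, hk⟩
  exact Nat.sInf_mem h1

/-- the distance changes by at most one along an edge -/
theorem sdist_adj (L : Set V) (hx : x ∈ A) (hxy : G.Adj x y)
    (h : ∃ l ∈ L, ∃ k, Near G A k y l) : sdist G A L x ≤ sdist G A L y + 1 := by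
  obtain ⟨l, hl, h1⟩ := sdist_near L h
  exact sdist_le L hl (near_succ.2 (Or.inr ⟨hx, y, hxy, h1⟩))

/-- the distance changes by at most `n` along a walk of length `n` -/
theorem sdist_lip (L : Set V) (hxy : Near G A n x y)
    (h : ∃ l ∈ L, ∃ k, Near G A k y l) : sdist G A L x ≤ sdist G A L y + n := by
  obtain ⟨l, hl, h1⟩ := sdist_near L h
  rw [Nat.add_comm]
  exact sdist_le L hl (near_trans hxy h1)

/-- a vertex at positive distance has a neighbour at smaller distance -/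
theorem sdist_down (L : Set V) (h : ∃ l ∈ L, ∃ k, Near G A k x l)
    (hpos : 0 < sdist G A L x) : ∃ y ∈ A, G.Adj x y ∧ sdist G A L y + 1 = sdist G A L x := by
  obtain ⟨l, hl, h1⟩ := sdist_near L h
  obtain ⟨d, hd⟩ : ∃ d, sdist G A L x = d + 1 := ⟨sdist G A L x - 1, by omega⟩
  rw [hd] at h1 ⊢
  rcases near_succ.1 h1 with h2 | ⟨hx, z, hz, h2⟩
  · have h3 := sdist_le L hl h2
    omega
  · refine ⟨z, near_left h2, hz, ?_⟩
    have h3 := sdist_le L hl h2
    have h4 := sdist_adj L hx hz ⟨l, hl, d, h2⟩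
    omega

theorem sdist_zero (L : Set V) (h : ∃ l ∈ L, ∃ k, Near G A k x l) :
    sdist G A L x = 0 ↔ x ∈ L ∧ x ∈ A := by
  constructor
  · intro h0
    obtain ⟨l, hl, h1⟩ := sdist_near L h
    rw [h0] at h1
    obtain ⟨h2, h3⟩ := near_zero.1 h1
    exact ⟨h2 ▸ hl, h3⟩
  · rintro ⟨h1, h2⟩
    exact Nat.le_zero.1 (sdist_le L h1 (near_refl h2))

/-- Walk down to the set `L`: all vertices of the walk have distance at most the distance of `x`. -/
theorem sdist_walk (L : Set V) (h : ∃ l ∈ L, ∃ k, Near G A k x l) :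
    ∃ l ∈ L, Near G {v ∈ A | sdist G A L v ≤ sdist G A L x} (sdist G A L x) x l := by
  induction hd : sdist G A L x generalizing x with
  | zero =>
    obtain ⟨h1, h2⟩ := (sdist_zero L h).1 hd
    exact ⟨x, h1, near_refl ⟨h2, hd.le⟩⟩
  | succ d ih =>
    obtain ⟨y, hyA, hxy, hy⟩ := sdist_down L h (by omega)
    obtain ⟨l, hl, k, hk⟩ := h
    obtain ⟨l0, hl0, h0⟩ := sdist_near L ⟨l, hl, k, hk⟩
    have hxA : x ∈ A := near_left hk
    have hy' : ∃ l ∈ L, ∃ k, Near G A k y l :=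
      ⟨l0, hl0, _, near_trans (near_adj hyA hxA hxy.symm) h0⟩
    have hyd : sdist G A L y = d := by omega
    obtain ⟨l1, hl1, h1⟩ := ih hy' hyd
    refine ⟨l1, hl1, near_succ.2 (Or.inr ⟨⟨hxA, hd.le⟩, y, hxy, near_mono h1 le_rfl ?_⟩)⟩
    rintro v ⟨hv1, hv2⟩
    exact ⟨hv1, by omega⟩

end Pool.Agent.H.MP_c8cc4c_co
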