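import Mathlib
import Pool.Agent.H.MP_c8cc4c_co.B.Path

/-! # MP_c8cc4c_co, base file B8: the faces meeting a set -/

open scoped Classical
open Finset

noncomputable section

namespace Pool.Agent.H.MP_c8cc4c_co

variable {M : PC}

/-- indicator of the faces which meet `S` -/
def tau (M : PC) (S : Set M.V) : M.F → ZMod 2 := fun f => if ∃ x ∈ S, M.At f x then 1 else 0

theorem tau_one {S : Set M.V} {f : M.F} {x : M.V} (hx : x ∈ S) (h : M.At f x) :
    tau M S f = 1 := by
  exact if_pos ⟨x, hx, h⟩

/-- An edge in the boundary of `tau S`: its ends are not in `S` and one of its faces meets `S`. -/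
theorem dtau (hM : M.IsSphere) {S : Set M.V} {e : M.E} (he : M.dF (tau M S) e ≠ 0) :
    (∀ x, M.inc e x → x ∉ S) ∧ ∃ f, M.bd f e ∧ ∃ x ∈ S, M.At f x := by
  obtain ⟨f, g, hf, hg, hf1, hg0⟩ := (dF_ne_zero_iff hM _).1 he
  refine ⟨?_, f, hf, ?_⟩
  · intro x hx hxS
    rw [tau_one hxS ⟨e, hg, hx⟩] at hg0
    exact one_ne_zero hg0
  · by_contra h
    have h0 : tau M S f = 0 := if_neg h
    rw [h0] at hf1
    exact zero_ne_one hf1

/-- A face which meets `S` and the complement of `S` has an edge in `cut S`: otherwise the set of edges of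
`f` with both ends in `S` is even (`face_two`), nonempty and not everything (`face_cyc`). -/
theorem face_cut (hM : M.IsSphere) {S : Set M.V} {f : M.F} {x y : M.V} (hx : x ∈ S) (hy : y ∉ S)
    (hfx : M.At f x) (hfy : M.At f y) : ∃ e, M.bd f e ∧ e ∈ M.cut S := by
  by_contra hcon
  push Not at hcon
  have hside : ∀ e, M.bd f e → ∀ v, M.inc e v → v ∈ S → ∀ w, M.inc e w → w ∈ S := by
    intro e he v hv hvS w hw
    by_contra hwS
    exact hcon e he (Finset.mem_filter.2 ⟨mem_univ _, ⟨v, hv, hvS⟩, w, hw, hwS⟩)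
  set z : M.E → ZMod 2 := fun e => if M.bd f e ∧ ∀ v, M.inc e v → v ∈ S then 1 else 0 with hz
  have hz1 : ∀ e, M.bd f e → ∀ v, M.inc e v → v ∈ S → z e = 1 := fun e he v hv hvS =>
    if_pos ⟨he, hside e he v hv hvS⟩
  have hz0 : ∀ e, ∀ v, M.inc e v → v ∉ S → z e = 0 := fun e v hv hvS =>
    if_neg (fun h => hvS (h.2 v hv))
  have hz0' : ∀ e, ¬ M.bd f e → z e = 0 := fun e he => if_neg (fun h => he h.1)
  have hev : M.Ev z := by
    intro v
    by_cases hvS : v ∈ S
    · by_cases hfv : M.At f v
      · obtain ⟨e, e', hee, hd⟩ := hM.face_two f v hfv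
        have he := (hd e).2 (Or.inl rfl)
        have he' := (hd e').2 (Or.inr rfl)
        have h1 : M.dE z v = ∑ d ∈ ({e, e'} : Finset M.E), z d := by
          unfold PC.dE
          symm
          apply Finset.sum_subset
          · intro d hd'
            rw [Finset.mem_insert, Finset.mem_singleton] at hd'
            rcases hd' with rfl | rfl
            · exact Finset.mem_filter.2 ⟨mem_univ _, he.2⟩
            · exact Finset.mem_filter.2 ⟨mem_univ _, he'.2⟩
          · intro d hd1 hd2
            rw [Finset.mem_filter] at hd1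
            apply hz0'
            intro hfd
            apply hd2
            rw [Finset.mem_insert, Finset.mem_singleton]
            exact (hd d).1 ⟨hfd, hd1.2⟩
        rw [h1, Finset.sum_pair hee, hz1 e he.1 v he.2 hvS, hz1 e' he'.1 v he'.2 hvS]
        exact CharTwo.add_self_eq_zero _
      · apply Finset.sum_eq_zero
        intro d hd
        rw [Finset.mem_filter] at hd
        apply hz0'
        intro hfd
        exact hfv ⟨d, hfd, hd.2⟩
    · apply Finset.sum_eq_zero
      intro d hd
      rw [Finset.mem_filter] at hd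
      exact hz0 d v hd.2 hvS
  obtain ⟨e, he, hex⟩ := hfx
  obtain ⟨e', he', hey⟩ := hfy
  rcases hM.face_cyc f z hev (fun d hd => by
    by_contra h
    exact hd (hz0' d h)) with h | h
  · have h1 := hz1 e he x hex hx
    rw [h] at h1
    exact zero_ne_one h1
  · exact h e' he' (hz0 e' y hey hy)

/-- `|d tau S| ≤ 8 |cut S|` in a quadrangulation: every edge of `d tau S` is in a face which meets
`S` and its complement, hence contains an edge of `cut S` (`face_cut`); each edge is in two faces and
each face has 4 edges. -/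
theorem wt_dtau (hM : M.IsSphere) (hQ : M.Quad) (S : Set M.V) :
    M.wt (M.dF (tau M S)) ≤ 8 * (M.cut S).card := by
  have h1 : (univ.filter fun e => M.dF (tau M S) e ≠ 0) ⊆
      (M.cut S).biUnion (fun e' => (univ.filter fun f => M.bd f e').biUnion
        (fun f => univ.filter fun e => M.bd f e)) := by
    intro e he
    rw [Finset.mem_filter] at he
    obtain ⟨h2, f, hf, x, hxS, hfx⟩ := dtau hM he.2
    obtain ⟨a, b, -, hab⟩ := hM.inc_two e
    have ha := (hab a).2 (Or.inl rfl)
    obtain ⟨e', he', hcut⟩ := face_cut hM hxS (h2 a ha) hfx ⟨e, hf, ha⟩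
    rw [Finset.mem_biUnion]
    refine ⟨e', hcut, ?_⟩
    rw [Finset.mem_biUnion]
    exact ⟨f, Finset.mem_filter.2 ⟨mem_univ _, he'⟩, Finset.mem_filter.2 ⟨mem_univ _, hf⟩⟩
  unfold PC.wt
  refine (Finset.card_le_card h1).trans ?_
  rw [mul_comm]
  apply Finset.card_biUnion_le_card_mul
  intro e' _
  obtain ⟨f, g, hfg, hfe⟩ := hM.bd_two e'
  have h2 : (univ.filter fun f => M.bd f e') = {f, g} := by
    ext h
    rw [Finset.mem_filter, Finset.mem_insert, Finset.mem_singleton, hfe]
    simp
  refine (Finset.card_biUnion_le_card_mul _ _ 4 ?_).trans ?_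
  · intro f _
    exact (hQ f).le
  · rw [h2, Finset.card_pair hfg]

/-- In a face (of a quadrangulation) any two vertices are at distance at most two. -/
theorem face_near (hM : M.IsSphere) (hQ : M.Quad) {f : M.F} {x y : M.V} (hx : M.At f x)
    (hy : M.At f y) : Near M.graph Set.univ 2 x y := by
  obtain ⟨v, e, hv4, -, hvinj, -, hinc, -, hat⟩ := quad_cycle hM hQ f
  obtain ⟨s, hs, rfl⟩ := (hat x).1 hx
  obtain ⟨t, ht, rfl⟩ := (hat y).1 hy
  have h40 : v 4 = v 0 := hv4 0
  have hadj : ∀ t, t < 3 → M.graph.Adj (v t) (v (t + 1)) := by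
    intro t ht
    refine ⟨fun h => ?_, e t, (hinc t).1, (hinc t).2⟩
    have := hvinj t (t + 1) (by omega) (by omega) h
    omega
  have hadj3 : M.graph.Adj (v 3) (v 0) := by
    refine ⟨fun h => ?_, e 3, (hinc 3).1, ?_⟩
    · have := hvinj 3 0 (by omega) (by omega) h
      omega
    · have := (hinc 3).2
      rwa [show (3 : ℕ) + 1 = 4 from rfl, h40] at this
  have h01 : Near M.graph Set.univ 1 (v 0) (v 1) :=
    near_adj (Set.mem_univ _) (Set.mem_univ _) (hadj 0 (by omega))
  have h12 : Near M.graph Set.univ 1 (v 1) (v 2) :=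
    near_adj (Set.mem_univ _) (Set.mem_univ _) (hadj 1 (by omega))
  have h23 : Near M.graph Set.univ 1 (v 2) (v 3) :=
    near_adj (Set.mem_univ _) (Set.mem_univ _) (hadj 2 (by omega))
  have h30 : Near M.graph Set.univ 1 (v 3) (v 0) :=
    near_adj (Set.mem_univ _) (Set.mem_univ _) hadj3
  have hm : ∀ a b, Near M.graph Set.univ 1 a b → Near M.graph Set.univ 2 a b :=
    fun a b h => near_mono h (by omega) subset_rfl
  have hr : ∀ a, Near M.graph Set.univ 2 a a :=
    fun a => near_mono (near_refl (Set.mem_univ _)) (by omega) subset_rfl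
  interval_cases s <;> interval_cases t
  · exact hr _
  · exact hm _ _ h01
  · exact near_trans h01 h12
  · exact hm _ _ (near_symm h30)
  · exact hm _ _ (near_symm h01)
  · exact hr _
  · exact hm _ _ h12
  · exact near_trans h12 h23
  · exact near_trans (near_symm h12) (near_symm h01)
  · exact hm _ _ (near_symm h12)
  · exact hr _
  · exact hm _ _ h23
  · exact hm _ _ h30
  · exact near_trans (near_symm h23) (near_symm h12)
  · exact hm _ _ (near_symm h23)
  · exact hr _

/-- number of edges leaving a set in terms of the outer boundary -/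
theorem cut_card (hM : M.IsSphere) (D : ℕ) (hD : ∀ v, M.deg v ≤ D) (S : Set M.V) :
    (M.cut S).card ≤ D * (univ.filter fun y => y ∉ S ∧ ∃ x ∈ S, M.graph.Adj x y).card := by
  have h1 : M.cut S ⊆ (univ.filter fun y => y ∉ S ∧ ∃ x ∈ S, M.graph.Adj x y).biUnion
      (fun y => univ.filter fun e => M.inc e y) := by
    intro e he
    unfold PC.cut at he
    rw [Finset.mem_filter] at he
    obtain ⟨-, ⟨x, hx, hxS⟩, y, hy, hyS⟩ := he
    rw [Finset.mem_biUnion]
    refine ⟨y, Finset.mem_filter.2 ⟨mem_univ _, hyS, x, hxS, ?_⟩,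
      Finset.mem_filter.2 ⟨mem_univ _, hy⟩⟩
    refine inc_adj hM hx hy ?_
    rintro rfl
    exact hyS hxS
  refine (Finset.card_le_card h1).trans ?_
  rw [mul_comm]
  exact Finset.card_biUnion_le_card_mul _ _ _ (fun y _ => hD y)

end Pool.Agent.H.MP_c8cc4c_co
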